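import Pool.Agent.H389R2.Dim.Lower
import Pool.Agent.W92.DP.Defs

/-!
Approximate double points of a curve: closedness and passage to the limit.
-/

set_option autoImplicit false

namespace Pool.Agent.TH990.DP

open Set Filter Topology Metric Pool.Agent.H389R2.Dim Pool.Agent.W92.DP H984N MeasureTheory
open scoped ENNReal NNReal

/-- Approximate double points. -/
def DDt (η ε : ℝ) (B : Set ℂ) (f : C(unitInterval, ℂ)) : Set ℂ :=
  {z | z ∈ B ∧ ∃ s u t : unitInterval, s ≤ u ∧ u ≤ t ∧ dist (f s) z ≤ ε ∧ dist (f t) z ≤ ε ∧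
    η ≤ dist (f u) z + ε}

theorem DDt_mono {η ε ε' : ℝ} (h : ε ≤ ε') (B : Set ℂ) (f : C(unitInterval, ℂ)) :
    DDt η ε B f ⊆ DDt η ε' B f := by
  rintro z ⟨hz, s, u, t, h1, h2, h3, h4, h5⟩
  exact ⟨hz, s, u, t, h1, h2, h3.trans h, h4.trans h, h5.trans (by linarith)⟩

theorem DDt_zero {η : ℝ} {B : Set ℂ} {f : C(unitInterval, ℂ)} : DDt η 0 B f ⊆ DPt η f ∩ B := by
  rintro z ⟨hz, s, u, t, h1, h2, h3, h4, h5⟩
  exact ⟨⟨s, u, t, h1, h2, dist_le_zero.1 h3, dist_le_zero.1 h4, by linarith⟩, hz⟩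

/-- The closed condition. -/
def Cnd (η ε : ℝ) (K : Set ℂ) : Set (C(unitInterval, ℂ) ×
    (K × unitInterval × unitInterval × unitInterval)) :=
  {p | p.2.2.1 ≤ p.2.2.2.1 ∧ p.2.2.2.1 ≤ p.2.2.2.2 ∧ dist (p.1 p.2.2.1) (p.2.1 : ℂ) ≤ ε ∧
    dist (p.1 p.2.2.2.2) (p.2.1 : ℂ) ≤ ε ∧ η ≤ dist (p.1 p.2.2.2.1) (p.2.1 : ℂ) + ε}

theorem closed_cnd (η ε : ℝ) {K : Set ℂ} : IsClosed (Cnd η ε K) := by
  have c1 : Continuous (fun p : C(unitInterval, ℂ) ×
      (K × unitInterval × unitInterval × unitInterval) => p.1 p.2.2.1) := by fun_prop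
  have c2 : Continuous (fun p : C(unitInterval, ℂ) ×
      (K × unitInterval × unitInterval × unitInterval) => p.1 p.2.2.2.1) := by
    fun_prop
  have c3 : Continuous (fun p : C(unitInterval, ℂ) ×
      (K × unitInterval × unitInterval × unitInterval) => p.1 p.2.2.2.2) := by
    fun_prop
  have c0 : Continuous (fun p : C(unitInterval, ℂ) ×
      (K × unitInterval × unitInterval × unitInterval) => (p.2.1 : ℂ)) := by
    fun_prop
  refine IsClosed.inter ?_ (IsClosed.inter ?_ (IsClosed.inter ?_ (IsClosed.inter ?_ ?_)))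
  · exact isClosed_le (by fun_prop) (by fun_prop)
  · exact isClosed_le (by fun_prop) (by fun_prop)
  · exact isClosed_le (c1.dist c0) continuous_const
  · exact isClosed_le (c3.dist c0) continuous_const
  · exact isClosed_le continuous_const ((c2.dist c0).add continuous_const)

/-- Upper semicontinuity. -/
theorem isOpen_DDt_sub {η ε : ℝ} {B O : Set ℂ} (hB : IsCompact B) (hO : IsOpen O) :
    IsOpen {f : C(unitInterval, ℂ) | DDt η ε B f ⊆ O} := by
  have hK : IsCompact (B \ O) := hB.diff hO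
  have : CompactSpace ↥(B \ O) := isCompact_iff_compactSpace.1 hK
  have h1 := closed_cnd η ε (K := B \ O)
  have h2 := isClosedMap_fst_of_compactSpace _ h1
  have h3 : {f : C(unitInterval, ℂ) | DDt η ε B f ⊆ O}ᶜ = Prod.fst '' Cnd η ε (B \ O) := by
    ext f
    simp only [mem_compl_iff, mem_ofPred_eq, not_subset, mem_image, Prod.exists]
    constructor
    · rintro ⟨z, ⟨hz, s, u, t, h1, h2, h3, h4, h5⟩, hzO⟩
      exact ⟨f, ⟨z, hz, hzO⟩, s, u, t, ⟨h1, h2, h3, h4, h5⟩, rfl⟩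
    · rintro ⟨g, ⟨z, hz, hzO⟩, s, u, t, ⟨h1, h2, h3, h4, h5⟩, rfl⟩
      exact ⟨z, ⟨hz, s, u, t, h1, h2, h3, h4, h5⟩, hzO⟩
  rw [← isClosed_compl_iff, h3]
  exact h2

theorem isClosed_good_DDt {t δ c η ε : ℝ} {B : Set ℂ} (hB : IsCompact B) :
    IsClosed {f : C(unitInterval, ℂ) | Good t δ c (DDt η ε B f)} := by
  have h : {f : C(unitInterval, ℂ) | Good t δ c (DDt η ε B f)} =
      ⋂ s : Finset (ℂ × ℝ), {f : C(unitInterval, ℂ) | (∀ p ∈ s, δ ≤ p.2) →
        DDt η ε B f ⊆ ⋃ p ∈ s, ball p.1 p.2 → c ≤ ∑ p ∈ s, p.2 ^ t} := by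
    ext K; simp [Good]
  rw [h]
  apply isClosed_iInter
  intro s
  by_cases h1 : (∀ p ∈ s, δ ≤ p.2) ∧ ¬ c ≤ ∑ p ∈ s, p.2 ^ t
  · have h2 : {f : C(unitInterval, ℂ) | (∀ p ∈ s, δ ≤ p.2) →
        DDt η ε B f ⊆ ⋃ p ∈ s, ball p.1 p.2 → c ≤ ∑ p ∈ s, p.2 ^ t} =
        {f : C(unitInterval, ℂ) | DDt η ε B f ⊆ ⋃ p ∈ s, ball p.1 p.2}ᶜ := by
      ext K
      simp only [Set.mem_ofPred_eq, Set.mem_compl_iff]
      constructor
      · intro h3 h4; exact h1.2 (h3 h1.1 h4)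
      · intro h3 _ h4; exact absurd h4 h3
    rw [h2]
    exact (isOpen_DDt_sub hB (isOpen_biUnion fun p _ => isOpen_ball)).isClosed_compl
  · have h2 : {f : C(unitInterval, ℂ) | (∀ p ∈ s, δ ≤ p.2) →
        DDt η ε B f ⊆ ⋃ p ∈ s, ball p.1 p.2 → c ≤ ∑ p ∈ s, p.2 ^ t} = univ := by
      ext K
      simp only [Set.mem_ofPred_eq, Set.mem_univ, iff_true]
      intro h3 _
      by_contra h4
      exact h1 ⟨h3, h4⟩
    rw [h2]; exact isClosed_univ

theorem isCompact_DDt {η ε : ℝ} {B : Set ℂ} (hB : IsCompact B) (f : C(unitInterval, ℂ)) :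
    IsCompact (DDt η ε B f) := by
  have : CompactSpace ↥B := isCompact_iff_compactSpace.1 hB
  have h1 := closed_cnd η ε (K := B)
  have hc : Continuous (fun p : ↥B × unitInterval × unitInterval × unitInterval => (f, p)) := by
    fun_prop
  have h2 := (h1.preimage hc).isCompact
  have h3 : DDt η ε B f =
      (fun p : ↥B × unitInterval × unitInterval × unitInterval => (p.1 : ℂ)) ''
      ((fun p : ↥B × unitInterval × unitInterval × unitInterval => (f, p)) ⁻¹' Cnd η ε B) := by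
    ext z
    simp only [mem_image, mem_preimage, Prod.exists]
    constructor
    · rintro ⟨hz, s, u, t, h1, h2, h3, h4, h5⟩
      exact ⟨⟨z, hz⟩, s, u, t, ⟨h1, h2, h3, h4, h5⟩, rfl⟩
    · rintro ⟨⟨z, hz⟩, s, u, t, ⟨h1, h2, h3, h4, h5⟩, rfl⟩
      exact ⟨hz, s, u, t, h1, h2, h3, h4, h5⟩
  rw [h3]
  exact h2.image (by fun_prop)

/-- Passing to `ε = 0`. -/
theorem good_zero {t δ c η : ℝ} {B : Set ℂ} (hB : IsCompact B) (f : C(unitInterval, ℂ))
    (h : ∀ n : ℕ, Good t δ c (DDt η (1 / ((n : ℝ) + 1)) B f)) : Good t δ c (DDt η 0 B f) := by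
  intro s hs hcov
  set O : Set ℂ := ⋃ p ∈ s, ball p.1 p.2 with hOdef
  have hO : IsOpen O := isOpen_biUnion fun p _ => isOpen_ball
  by_contra hcon
  -- all approximations stick out of `O`
  have hne : ∀ n : ℕ, (DDt η (1 / ((n : ℝ) + 1)) (B \ O) f).Nonempty := by
    intro n
    by_contra hemp
    apply hcon
    apply h n s hs
    rintro z ⟨hz, hh⟩
    by_contra hzO
    exact hemp ⟨z, ⟨hz, hzO⟩, hh⟩
  have hK : IsCompact (B \ O) := hB.diff hO
  have : CompactSpace ↥(B \ O) := isCompact_iff_compactSpace.1 hK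
  have hc : Continuous (fun p : ↥(B \ O) × unitInterval × unitInterval × unitInterval =>
      (f, p)) := by fun_prop
  let A : ℕ → Set (↥(B \ O) × unitInterval × unitInterval × unitInterval) :=
    fun n => (fun p => (f, p)) ⁻¹' Cnd η (1 / ((n : ℝ) + 1)) (B \ O)
  have hAcl : ∀ n, IsClosed (A n) := fun n => (closed_cnd η _).preimage hc
  have hle : ∀ n : ℕ, 1 / (((n + 1 : ℕ) : ℝ) + 1) ≤ 1 / ((n : ℝ) + 1) := fun n =>
    Nat.one_div_le_one_div (Nat.le_succ n)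
  have hAanti : ∀ n, A (n + 1) ⊆ A n := by
    rintro n p ⟨h1, h2, h3, h4, h5⟩
    exact ⟨h1, h2, h3.trans (hle n), h4.trans (hle n), h5.trans (by linarith [hle n])⟩
  have hAne : ∀ n, (A n).Nonempty := by
    intro n
    obtain ⟨z, hz, s', u, t', h1, h2, h3, h4, h5⟩ := hne n
    exact ⟨(⟨z, hz⟩, s', u, t'), h1, h2, h3, h4, h5⟩
  obtain ⟨p, hp⟩ := IsCompact.nonempty_iInter_of_sequence_nonempty_isCompact_isClosed A
    hAanti hAne (hAcl 0).isCompact hAcl
  rw [mem_iInter] at hp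
  have hlim : Tendsto (fun n : ℕ => 1 / ((n : ℝ) + 1)) atTop (𝓝 0) :=
    tendsto_one_div_add_atTop_nhds_zero_nat
  have hz : (p.1 : ℂ) ∈ DDt η 0 B f := by
    refine ⟨p.1.2.1, p.2.1, p.2.2.1, p.2.2.2, (hp 0).1, (hp 0).2.1, ?_, ?_, ?_⟩
    · exact ge_of_tendsto' hlim fun n => (hp n).2.2.1
    · exact ge_of_tendsto' hlim fun n => (hp n).2.2.2.1
    · exact ge_of_tendsto' ((tendsto_const_nhds).add hlim) fun n => (hp n).2.2.2.2
  exact p.1.2.2 (hcov hz)

/-- Abstract passage to the limit. -/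
theorem ae_dimX {μs : ℕ → ProbabilityMeasure X} {μ : ProbabilityMeasure X}
    (hμ : Tendsto μs atTop (𝓝 μ)) {t : ℝ} (ht : 0 < t) (T : C(unitInterval, ℂ) → Set ℂ)
    (h : ∀ ε : ℝ≥0∞, 0 < ε → ∃ (c η : ℝ) (B : Set ℂ), 0 < c ∧ IsCompact B ∧
      (∀ f, DDt η 0 B f ⊆ T f) ∧ ∀ ε' : ℝ, 0 < ε' → ∀ᶠ i in atTop,
        (μs i : Measure X) {p : X | ¬ Good t ε' c (DDt η ε' B p.1)} ≤ ε) :
    ∀ᵐ p : X ∂(μ : Measure X), ENNReal.ofReal t ≤ dimH (T p.1) := by
  rw [ae_iff, ← nonpos_iff_eq_zero]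
  apply ENNReal.le_of_forall_pos_le_add
  intro ε hε _
  obtain ⟨c, η, B, hc, hB, hT, h1⟩ := h ε (by exact_mod_cast hε)
  have hopen : ∀ ε' : ℝ, IsOpen {p : X | ¬ Good t ε' c (DDt η ε' B p.1)} := by
    intro ε'
    exact ((isClosed_good_DDt (t := t) (δ := ε') (c := c) (η := η) (ε := ε') hB).preimage
      continuous_fst).isOpen_compl
  have h2 : ∀ ε' : ℝ, 0 < ε' →
      (μ : Measure X) {p : X | ¬ Good t ε' c (DDt η ε' B p.1)} ≤ ε := by
    intro ε' hε'
    refine (ProbabilityMeasure.le_liminf_measure_open_of_tendsto hμ (hopen ε')).trans ?_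
    exact liminf_le_of_frequently_le (h1 ε' hε').frequently
  set Bd : ℕ → Set X := fun n =>
    {p : X | ¬ Good t (1 / ((n : ℝ) + 1)) c (DDt η (1 / ((n : ℝ) + 1)) B p.1)} with hBd
  have hmono : Monotone Bd := by
    intro n n' hnn p hp hG
    apply hp
    have h3 := hG.anti (Nat.one_div_le_one_div (α := ℝ) hnn)
    exact h3.mono (DDt_mono (Nat.one_div_le_one_div hnn) B p.1)
  have h3 : {p : X | ¬ ENNReal.ofReal t ≤ dimH (T p.1)} ⊆ ⋃ n : ℕ, Bd n := by
    intro p hp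
    by_contra hcon
    simp only [hBd, Set.mem_iUnion, Set.mem_ofPred_eq, not_exists, not_not] at hcon
    apply hp
    have h4 : ∀ δ' : ℝ, 0 < δ' → Good t δ' c (DDt η 0 B p.1) := by
      intro δ' hδ'
      apply good_zero hB
      intro n
      obtain ⟨m, hm⟩ := exists_nat_one_div_lt hδ'
      have h5 := hcon (max n m)
      have h6 : (1 : ℝ) / (((max n m : ℕ) : ℝ) + 1) ≤ 1 / ((n : ℝ) + 1) :=
        Nat.one_div_le_one_div (le_max_left _ _)
      have h7 : (1 : ℝ) / (((max n m : ℕ) : ℝ) + 1) ≤ 1 / ((m : ℝ) + 1) :=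
        Nat.one_div_le_one_div (le_max_right _ _)
      exact (h5.mono (DDt_mono h6 B p.1)).anti (h7.trans hm.le)
    exact (le_dimH_of_good ht hc (isCompact_DDt hB p.1) h4).trans (dimH_mono (hT p.1))
  refine le_trans (measure_mono h3) ?_
  rw [zero_add, hmono.measure_iUnion]
  exact iSup_le fun n => h2 _ (by positivity)

end Pool.Agent.TH990.DP
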