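import Pool.Agent.TH990.DP.Closed
import Pool.Agent.W52.DPInd
import Pool.Agent.W462.DPL.C

/-!
Lower bound for the dimension of the double points of the limits of the exploration path, near its
end point (statement `St_limL` of `Pool.Agent.W92.DP.Defs`).
-/

set_option autoImplicit false

namespace Pool.Agent.TH990.DP

open H974 H973 H12S Finset H389NS H984P H984N MeasureTheory Filter Topology
open Pool.Agent.W92.DP Pool.Agent.H389R2.Dim Pool.Agent.W52.DPInd
open scoped ENNReal NNReal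

/-- Position of a vertex. -/
noncomputable def zv (δ : ℝ) (v : Vtx) : ℂ := ⟨δ * v.1, δ * (v.2 + 1)⟩

theorem zv_re (δ : ℝ) (v : Vtx) : (zv δ v).re = δ * v.1 := rfl

theorem zv_im (δ : ℝ) (v : Vtx) : (zv δ v).im = δ * (v.2 + 1) := rfl

theorem dist_pos_zv {δ : ℝ} (hδ : 0 ≤ δ) (σ : St) : dist (pos δ σ) (zv δ σ.1) ≤ δ / 2 := by
  have h1 : |(pos δ σ).re - (zv δ σ.1).re| ≤ δ / 4 := by
    rw [ML.pos_re, zv_re]
    have e : δ * ((σ.1.1 : ℝ) + ML.qx σ.2) - δ * (σ.1.1 : ℝ) = δ * ML.qx σ.2 := by ring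
    rw [e, abs_mul, abs_of_nonneg hδ]
    have := mul_le_mul_of_nonneg_left (ML.qx_le σ.2) hδ
    linarith
  have h2 : |(pos δ σ).im - (zv δ σ.1).im| ≤ δ / 4 := by
    rw [ML.pos_im, zv_im]
    have e : δ * ((σ.1.2 : ℝ) + 1 + ML.qy σ.2) - δ * ((σ.1.2 : ℝ) + 1) = δ * ML.qy σ.2 := by ring
    rw [e, abs_mul, abs_of_nonneg hδ]
    have := mul_le_mul_of_nonneg_left (ML.qy_le σ.2) hδ
    linarith
  exact (ML.dist_le_of h1 h2).trans (by linarith)

theorem sd_le_zv {δ : ℝ} (hδ : 0 ≤ δ) (v w : Vtx) :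
    δ * ((sd v w : ℤ) : ℝ) ≤ dist (zv δ v) (zv δ w) := by
  rw [ML.sd_cast]
  have e1 : |(zv δ v).re - (zv δ w).re| = δ * |((v.1 - w.1 : ℤ) : ℝ)| := by
    rw [zv_re, zv_re, ← mul_sub, abs_mul, abs_of_nonneg hδ]
    push_cast
    rfl
  have e2 : |(zv δ v).im - (zv δ w).im| = δ * |((v.2 - w.2 : ℤ) : ℝ)| := by
    rw [zv_im, zv_im, ← mul_sub, abs_mul, abs_of_nonneg hδ]
    push_cast
    congr 2
    ring
  rcases max_choice |((v.1 - w.1 : ℤ) : ℝ)| |((v.2 - w.2 : ℤ) : ℝ)| with h | h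
  · rw [h, ← e1]; exact ML.le_dist_re _ _
  · rw [h, ← e2]; exact ML.le_dist_im _ _

theorem zv_inj {δ : ℝ} (hδ : 0 < δ) : Function.Injective (zv δ) := by
  intro v w h
  have h1 := congrArg Complex.re h
  have h2 := congrArg Complex.im h
  rw [zv_re, zv_re] at h1
  rw [zv_im, zv_im] at h2
  have h3 := mul_left_cancel₀ hδ.ne' h1
  have h4 := mul_left_cancel₀ hδ.ne' h2
  exact Prod.ext (by exact_mod_cast h3) (by exact_mod_cast (add_right_cancel h4))

/-- Values at the nodes. -/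
theorem pl_node {N : ℕ} (hN : 0 < N) (p : ℕ → ℂ) {k : ℕ} (hk : k ≤ N) :
    ∃ s : unitInterval, (s : ℝ) = k / N ∧ pl N p s = p k := by
  have hN' : (0:ℝ) < N := by exact_mod_cast hN
  have hk' : (k:ℝ) ≤ N := by exact_mod_cast hk
  refine ⟨⟨k / N, by positivity, by rw [div_le_one hN']; exact hk'⟩, rfl, ?_⟩
  rcases hk.lt_or_eq with h | h
  · have e : ((k:ℝ) / N) * N = k := by field_simp
    rw [pl_seg h (s := ⟨k / N, by positivity, by rw [div_le_one hN']; exact hk'⟩)]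
    · show p k + ((((k:ℝ) / N) * N - k : ℝ) : ℂ) * (p (k + 1) - p k) = p k
      rw [e, sub_self, Complex.ofReal_zero, zero_mul, add_zero]
    · show (k:ℝ) ≤ ((k:ℝ) / N) * N
      rw [e]
    · show ((k:ℝ) / N) * N ≤ k + 1
      rw [e]; linarith
  · subst h
    have e : (⟨(k:ℝ) / k, by positivity, by rw [div_le_one hN']⟩ : unitInterval) = 1 := by
      apply Subtype.ext
      show (k:ℝ) / k = 1
      exact div_self hN'.ne'
    rw [e]
    exact pl_one _ _

/-- the deterministic part -/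
theorem good_of_Gd4 (hdet : St_det) (R : Rect) {δ : ℝ} (hδ : 0 < δ) (hok : (R.dm δ).Ok)
    {F : Finset Edg} (hF : F ⊆ (R.dm δ).edges) {L m : ℕ} (hL : 2 ≤ L) (hm : 64 ≤ m)
    (hl : (R.dm δ).l < -(27 * (L * m : ℕ))) (hr : 27 * (L * m : ℕ) < (R.dm δ).r)
    (hh : 39 * (L * m : ℕ) < (R.dm δ).h) {t c0 E0 a b ε' : ℝ} (ht : 0 < t) (hc0 : 0 < c0)
    (hE0 : 0 < E0) (ha : 0 < a) (hab : a ≤ δ * (L * m : ℕ)) (hb : δ * (L * m : ℕ) ≤ b)
    (hε' : δ ≤ ε') (hδa : δ ≤ a) (hG : Gd4 c0 E0 t L m F) :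
    Good t ε' (2 ^ (-t) / (E0 / c0 ^ 2 * (a / L) ^ (-t)))
      (DDt a ε' (Set.Icc (-(10 * b)) (-(8 * a)) ×ℂ Set.Icc (17 * a) (20 * b))
        (R.curve δ F)) := by
  classical
  obtain ⟨⟨hGO, hGD⟩, hcard, hEn⟩ := hG
  have hL' : (0:ℝ) < L := by
    have : 0 < L := by omega
    exact_mod_cast this
  have hm' : (0:ℝ) < m := by
    have : 0 < m := by omega
    exact_mod_cast this
  have hcpos : (0 : ℝ) < ((V4 L m F).card : ℝ) := lt_of_lt_of_le (by positivity) hcard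
  have hne : (V4 L m F).Nonempty := by
    rw [← Finset.card_pos]; exact_mod_cast hcpos
  have hε0 : 0 < ε' := hδ.trans_le hε'
  have hUr : δ * (L * m : ℕ) = L * (δ * m) := by push_cast; ring
  have hma : a / L ≤ δ * m := by
    rw [div_le_iff₀ hL']
    linarith
  refine good_of_energy hε0 ht.le (by positivity) ((V4 L m F).image (zv δ)) (hne.image _) ?_ ?_
  · intro z hz
    rw [Finset.mem_coe, Finset.mem_image] at hz
    obtain ⟨v, hv, rfl⟩ := hz
    unfold V4 at hv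
    rw [Finset.mem_filter] at hv
    obtain ⟨hvc, hvE⟩ := hv
    obtain ⟨i, j, l, hij, hjl, hlN, hi, hl', hj⟩ :=
      hdet (R.dm δ) F hok hF L m hL hm hl hr hh hGO hGD v hvc hvE
    have hNpos : 0 < (R.dm δ).len F := by omega
    have hcur : R.curve δ F = pl ((R.dm δ).len F) (fun k => pos δ ((R.dm δ).walk F k)) := rfl
    obtain ⟨s, hs1, hs2⟩ := pl_node hNpos (fun k => pos δ ((R.dm δ).walk F k))
      (k := i) (by omega)
    obtain ⟨u, hu1, hu2⟩ := pl_node hNpos (fun k => pos δ ((R.dm δ).walk F k))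
      (k := j) (by omega)
    obtain ⟨s', hs1', hs2'⟩ := pl_node hNpos (fun k => pos δ ((R.dm δ).walk F k))
      (k := l) (by omega)
    have hN' : (0:ℝ) < (R.dm δ).len F := by exact_mod_cast hNpos
    refine ⟨?_, s, u, s', ?_, ?_, ?_, ?_, ?_⟩
    · rw [mem_core4] at hvc
      obtain ⟨⟨g1, g2⟩, g3, g4⟩ := hvc
      have g1' : -(10 * ((L * m : ℕ) : ℝ)) ≤ v.1 := by exact_mod_cast g1
      have g2' : (v.1 : ℝ) ≤ -(8 * ((L * m : ℕ) : ℝ)) := by exact_mod_cast g2
      have g3' : 17 * ((L * m : ℕ) : ℝ) ≤ v.2 := by exact_mod_cast g3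
      have g4' : (v.2 : ℝ) ≤ 19 * ((L * m : ℕ) : ℝ) := by exact_mod_cast g4
      rw [Complex.mem_reProdIm, Set.mem_Icc, Set.mem_Icc, zv_re, zv_im]
      have k1 := mul_le_mul_of_nonneg_left g1' hδ.le
      have k2 := mul_le_mul_of_nonneg_left g2' hδ.le
      have k3 := mul_le_mul_of_nonneg_left g3' hδ.le
      have k4 := mul_le_mul_of_nonneg_left g4' hδ.le
      refine ⟨⟨?_, ?_⟩, ?_, ?_⟩ <;> nlinarith
    · rw [← Subtype.coe_le_coe, hs1, hu1]
      gcongr
    · rw [← Subtype.coe_le_coe, hs1', hu1]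
      gcongr
    · rw [hcur, hs2]
      have := dist_pos_zv hδ.le ((R.dm δ).walk F i)
      rw [hi] at this
      linarith
    · rw [hcur, hs2']
      have := dist_pos_zv hδ.le ((R.dm δ).walk F l)
      rw [hl'] at this
      linarith
    · rw [hcur, hu2]
      have h1 := dist_pos_zv hδ.le ((R.dm δ).walk F j)
      have h2 := sd_le_zv hδ.le ((R.dm δ).walk F j).1 v
      have h3 := dist_triangle_left (zv δ ((R.dm δ).walk F j).1) (zv δ v)
        (pos δ ((R.dm δ).walk F j))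
      have h4 : 15 * ((L * m : ℕ) : ℝ) ≤ ((sd ((R.dm δ).walk F j).1 v : ℤ) : ℝ) := by
        exact_mod_cast hj
      have h5 := mul_le_mul_of_nonneg_left h4 hδ.le
      linarith
  · rw [Finset.sum_image (fun a _ b _ hab => zv_inj hδ hab),
      Finset.card_image_of_injective _ (zv_inj hδ)]
    have e1 : ∀ v ∈ V4 L m F, ∑ y ∈ (V4 L m F).image (zv δ), (max (dist (zv δ v) y) ε') ^ (-t) ≤
        ∑ w ∈ V4 L m F, δ ^ (-t) * ((max (sd v w) 1 : ℤ) : ℝ) ^ (-t) := by
      intro v _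
      rw [Finset.sum_image (fun a _ b _ hab => zv_inj hδ hab)]
      refine Finset.sum_le_sum fun w _ => ?_
      have hmx : (1 : ℝ) ≤ ((max (sd v w) 1 : ℤ) : ℝ) := by
        exact_mod_cast le_max_right (sd v w) 1
      rw [← Real.mul_rpow (by positivity) (by linarith)]
      refine Real.rpow_le_rpow_of_nonpos (by positivity) ?_ (by linarith)
      have h6 := sd_le_zv hδ.le v w
      rcases max_cases (sd v w) 1 with h | h
      · rw [h.1]; exact h6.trans (le_max_left _ _)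
      · rw [h.1]; push_cast; rw [mul_one]
        exact hε'.trans (le_max_right _ _)
    refine (Finset.sum_le_sum e1).trans ?_
    have e2 : ∑ v ∈ V4 L m F, ∑ w ∈ V4 L m F, δ ^ (-t) * ((max (sd v w) 1 : ℤ) : ℝ) ^ (-t)
        = δ ^ (-t) * En4 t L m F := by
      unfold En4
      rw [Finset.mul_sum]
      refine Finset.sum_congr rfl fun v _ => ?_
      rw [Finset.mul_sum]
    rw [e2]
    have e3 : (c0 * (m : ℝ) ^ (3/4 : ℝ)) ^ 2 ≤ ((V4 L m F).card : ℝ) ^ 2 :=
      pow_le_pow_left₀ (by positivity) hcard 2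
    have e4 : (c0 * (m : ℝ) ^ (3/4 : ℝ)) ^ 2 = c0 ^ 2 * (m : ℝ) ^ (3/2 : ℝ) := by
      rw [mul_pow, ← Real.rpow_natCast ((m : ℝ) ^ (3/4 : ℝ)) 2, ← Real.rpow_mul hm'.le]
      norm_num
    rw [e4] at e3
    have e5 : (δ * m) ^ (-t) ≤ (a / L) ^ (-t) :=
      Real.rpow_le_rpow_of_nonpos (by positivity) hma (by linarith)
    calc δ ^ (-t) * En4 t L m F ≤ δ ^ (-t) * (E0 * (m : ℝ) ^ (3/2 - t)) :=
          mul_le_mul_of_nonneg_left hEn (by positivity)
      _ = E0 / c0 ^ 2 * (δ * m) ^ (-t) * (c0 ^ 2 * (m : ℝ) ^ (3/2 : ℝ)) := by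
          have : (m : ℝ) ^ (3/2 - t) = (m : ℝ) ^ (-t) * (m : ℝ) ^ (3/2 : ℝ) := by
            rw [← Real.rpow_add hm']
            congr 1
            ring
          rw [this, Real.mul_rpow hδ.le hm'.le]
          field_simp
      _ ≤ E0 / c0 ^ 2 * (a / L) ^ (-t) * (c0 ^ 2 * (m : ℝ) ^ (3/2 : ℝ)) := by
          gcongr
      _ ≤ E0 / c0 ^ 2 * (a / L) ^ (-t) * ((V4 L m F).card : ℝ) ^ 2 :=
          mul_le_mul_of_nonneg_left e3 (by positivity)

theorem SA_sub {l r h U : ℤ} (h1 : l ≤ -(27 * U)) (h2 : 27 * U ≤ r) (h3 : 39 * U ≤ h) :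
    SA U ⊆ RE l r 0 h := by
  intro e he
  unfold SA at he
  rw [mem_ES, mem_HA, mem_HA] at he
  obtain ⟨x, y, _ | _⟩ := e
  · rw [src_mk, tgt_false] at he
    simp only [mem_RE_false] at he ⊢
    omega
  · rw [src_mk, tgt_true] at he
    simp only [mem_RE_true] at he ⊢
    omega

/-- **lower bound for the dimension of the double points near the end point** -/
theorem limL : St_limL := by
  intro hgood hind hdet R δ hδ hδ0 μ hμ t ht ht1 ρ hρ
  obtain ⟨L, M, c0, E0, p, hL, hM, hc0, hE0, hp, hp1, hG⟩ := hgood t ht ht1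
  obtain ⟨κ, S, δ0, hκ, hS, hδ0p, hδ01, hsh⟩ := R.shape
  refine ae_dimX hμ ht (fun f => {z : ℂ | z ∈ R.D ∧ dist z 0 < ρ ∧ ∃ η : ℝ, 0 < η ∧ z ∈ DPt η f}) ?_
  intro ε hε
  obtain ⟨ε1, hε1, hε1ε⟩ : ∃ ε1 : ℝ, 0 < ε1 ∧ ENNReal.ofReal ε1 ≤ ε := by
    rcases eq_or_ne ε ∞ with h | h
    · exact ⟨1, one_pos, by rw [h]; exact le_top⟩
    · exact ⟨ε.toReal, ENNReal.toReal_pos hε.ne' h, by rw [ENNReal.ofReal_toReal h]⟩
  obtain ⟨J, hJ⟩ : ∃ J : ℕ, (1 - p) ^ J ≤ ε1 := by
    obtain ⟨J, hJ⟩ := exists_pow_lt_of_lt_one hε1 (show 1 - p < 1 by linarith)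
    exact ⟨J, hJ.le⟩
  have hA := R.hA
  have hB := R.hB
  have hH := R.hH
  -- the macroscopic sizes
  obtain ⟨b, hb⟩ : ∃ b : ℝ, b = min (min R.A R.B) (min R.H ρ) / 64 := ⟨_, rfl⟩
  have hb0 : 0 < b := by
    rw [hb]
    have : 0 < min (min R.A R.B) (min R.H ρ) := lt_min (lt_min hA hB) (lt_min hH hρ)
    positivity
  have hbA : 64 * b ≤ R.A := by
    rw [hb]
    have : min (min R.A R.B) (min R.H ρ) ≤ R.A := (min_le_left _ _).trans (min_le_left _ _)
    linarith
  have hbB : 64 * b ≤ R.B := by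
    rw [hb]
    have : min (min R.A R.B) (min R.H ρ) ≤ R.B := (min_le_left _ _).trans (min_le_right _ _)
    linarith
  have hbH : 64 * b ≤ R.H := by
    rw [hb]
    have : min (min R.A R.B) (min R.H ρ) ≤ R.H := (min_le_right _ _).trans (min_le_left _ _)
    linarith
  have hbρ : 64 * b ≤ ρ := by
    rw [hb]
    have : min (min R.A R.B) (min R.H ρ) ≤ ρ := (min_le_right _ _).trans (min_le_right _ _)
    linarith
  obtain ⟨K, hK⟩ : ∃ K : ℕ, K = L * M * 64 ^ J := ⟨_, rfl⟩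
  have hLp : 0 < L := by omega
  have hMp : 0 < M := by omega
  have hKp : 0 < K := by rw [hK]; positivity
  have hK' : (0:ℝ) < K := by exact_mod_cast hKp
  have hL' : (0:ℝ) < L := by exact_mod_cast hLp
  have hM' : (0:ℝ) < M := by exact_mod_cast hMp
  obtain ⟨a, ha⟩ : ∃ a : ℝ, a = b / (2 * 64 ^ J) := ⟨_, rfl⟩
  have ha0 : 0 < a := by rw [ha]; positivity
  have hab : a ≤ b := by
    rw [ha, div_le_iff₀ (by positivity)]
    have : (1:ℝ) ≤ 64 ^ J := one_le_pow₀ (by norm_num)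
    nlinarith
  refine ⟨2 ^ (-t) / (E0 / c0 ^ 2 * (a / L) ^ (-t)), a,
    Set.Icc (-(10 * b)) (-(8 * a)) ×ℂ Set.Icc (17 * a) (20 * b), by positivity,
    isCompact_Icc.reProdIm isCompact_Icc, ?_, ?_⟩
  · intro f z hz
    obtain ⟨h1, h2⟩ := DDt_zero hz
    rw [Complex.mem_reProdIm, Set.mem_Icc, Set.mem_Icc] at h2
    obtain ⟨⟨k1, k2⟩, k3, k4⟩ := h2
    refine ⟨⟨by linarith, by linarith, by linarith, by linarith⟩, ?_, a, ha0, h1⟩
    rw [dist_zero_right]
    refine lt_of_le_of_lt (Complex.norm_le_abs_re_add_abs_im z) ?_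
    have l1 : |z.re| ≤ 10 * b := by
      rw [abs_le]
      constructor <;> linarith
    have l2 : |z.im| ≤ 20 * b := by
      rw [abs_le]
      constructor <;> linarith
    linarith
  · intro ε' hε'
    -- small mesh
    obtain ⟨δ1, hδ1⟩ : ∃ δ1 : ℝ, δ1 = min (min δ0 ε') (min (b / (2 * K)) a) := ⟨_, rfl⟩
    have hδ1p : 0 < δ1 := by
      rw [hδ1]
      exact lt_min (lt_min hδ0p hε') (lt_min (by positivity) ha0)
    have hev : ∀ᶠ i in atTop, δ i < δ1 := hδ0.eventually (gt_mem_nhds hδ1p)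
    filter_upwards [hev] with i hi
    have i1 : δ i ≤ δ0 := hi.le.trans (by rw [hδ1]; exact (min_le_left _ _).trans (min_le_left _ _))
    have i2 : δ i ≤ ε' := hi.le.trans (by rw [hδ1]; exact (min_le_left _ _).trans (min_le_right _ _))
    have i3 : δ i ≤ b / (2 * K) := hi.le.trans (by
      rw [hδ1]; exact (min_le_right _ _).trans (min_le_left _ _))
    have i4 : δ i ≤ a := hi.le.trans (by
      rw [hδ1]; exact (min_le_right _ _).trans (min_le_right _ _))
    have hδi := hδ i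
    set d : ℝ := δ i with hd
    rw [le_div_iff₀ (by positivity)] at i3
    -- the number r
    obtain ⟨r, hr⟩ : ∃ r : ℕ, r = ⌊b / (d * K)⌋₊ := ⟨_, rfl⟩
    have hdK : 0 < d * K := by positivity
    have hr1 : 1 ≤ r := by
      rw [hr]
      apply Nat.le_floor
      rw [Nat.cast_one, le_div_iff₀ hdK]
      nlinarith
    have hrle : (r:ℝ) * (d * K) ≤ b := by
      have := Nat.floor_le (show 0 ≤ b / (d * K) by positivity)
      rw [← hr] at this
      rwa [le_div_iff₀ hdK] at this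
    have hrge : b < ((r:ℝ) + 1) * (d * K) := by
      have := Nat.lt_floor_add_one (b / (d * K))
      rw [← hr] at this
      rwa [div_lt_iff₀ hdK] at this
    have hKr : (K:ℝ) = L * M * 64 ^ J := by rw [hK]; push_cast; ring
    -- the scales
    have hsc : ∀ j < J, a ≤ d * (L * (M * (64 ^ j * r)) : ℕ) ∧
        d * (L * (M * (64 ^ j * r)) : ℕ) ≤ b := by
      intro j hj
      have e1 : d * (L * (M * (64 ^ j * r)) : ℕ) = (64:ℝ) ^ j * (r * (d * (L * M))) := by
        push_cast; ring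
      have h64 : (1:ℝ) ≤ 64 ^ j := one_le_pow₀ (by norm_num)
      have h64' : (64:ℝ) ^ j ≤ 64 ^ J := pow_le_pow_right₀ (by norm_num) hj.le
      have hX : 0 ≤ (r:ℝ) * (d * (L * M)) := by positivity
      rw [e1]
      constructor
      · have h1 : a ≤ r * (d * (L * M)) := by
          rw [ha, div_le_iff₀ (by positivity)]
          have e2 : (r:ℝ) * (d * (L * M)) * (2 * 64 ^ J) = 2 * (r * (d * K)) := by
            rw [hKr]; ring
          rw [e2]
          have : d * K ≤ r * (d * K) := by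
            have : (1:ℝ) ≤ r := by exact_mod_cast hr1
            nlinarith
          nlinarith
        nlinarith
      · have h1 : (64:ℝ) ^ j * (r * (d * (L * M))) ≤ 64 ^ J * (r * (d * (L * M))) :=
          mul_le_mul_of_nonneg_right h64' hX
        refine h1.trans (le_of_eq_of_le ?_ hrle)
        rw [hKr]; ring
    have hfit : ∀ U : ℕ, d * U ≤ b → (R.dm d).l < -(27 * (U : ℤ)) ∧ 27 * (U : ℤ) < (R.dm d).r ∧
        39 * (U : ℤ) < (R.dm d).h := by
      intro U hU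
      have hdb : d ≤ b := i4.trans hab
      have a1 := Int.floor_le (-(R.A / d))
      have a2 := Int.le_ceil (R.B / d)
      have a3 := Int.le_ceil (R.H / d)
      have e1 : d * (R.A / d) = R.A := by field_simp
      have e2 : d * (R.B / d) = R.B := by field_simp
      have e3 : d * (R.H / d) = R.H := by field_simp
      have g1 : 27 * (U:ℝ) + 1 < R.A / d := by
        rw [lt_div_iff₀ hδi]
        nlinarith
      have g2 : 27 * (U:ℝ) + 1 < R.B / d := by
        rw [lt_div_iff₀ hδi]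
        nlinarith
      have g3 : 39 * (U:ℝ) + 2 < R.H / d := by
        rw [lt_div_iff₀ hδi]
        nlinarith
      refine ⟨?_, ?_, ?_⟩
      · show ⌊-(R.A / d)⌋ + 1 < -(27 * (U : ℤ))
        have : ((⌊-(R.A / d)⌋ + 1 : ℤ) : ℝ) < ((-(27 * (U : ℤ)) : ℤ) : ℝ) := by
          push_cast
          linarith
        exact_mod_cast this
      · show 27 * (U : ℤ) < ⌈R.B / d⌉ - 1
        have : ((27 * (U : ℤ) : ℤ) : ℝ) < ((⌈R.B / d⌉ - 1 : ℤ) : ℝ) := by
          push_cast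
          linarith
        exact_mod_cast this
      · show 39 * (U : ℤ) < ⌈R.H / d⌉ - 2
        have : ((39 * (U : ℤ) : ℤ) : ℝ) < ((⌈R.H / d⌉ - 2 : ℤ) : ℝ) := by
          push_cast
          linarith
        exact_mod_cast this
    have hopen : IsOpen {p : X |
        ¬ Good t ε' (2 ^ (-t) / (E0 / c0 ^ 2 * (a / L) ^ (-t)))
          (DDt a ε' (Set.Icc (-(10 * b)) (-(8 * a)) ×ℂ Set.Icc (17 * a) (20 * b)) p.1)} :=
      ((isClosed_good_DDt (isCompact_Icc.reProdIm isCompact_Icc)).preimage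
        continuous_fst).isOpen_compl
    rw [R.law_apply d hopen.measurableSet]
    refine le_trans (ENNReal.ofReal_le_ofReal ?_) hε1ε
    refine le_trans ?_ ((hind p c0 E0 t L M r hp1 hL hM hr1 hG J (R.dm d).edges ?_).trans hJ)
    · refine Pr_mono Pool.Agent.W462.DPL.okh ?_
      intro F hF hbad j hj hGd
      apply hbad
      obtain ⟨s1, s2⟩ := hsc j hj
      obtain ⟨f1, f2, f3⟩ := hfit _ s2
      have hm64 : 64 ≤ M * (64 ^ j * r) := by
        have : 1 ≤ 64 ^ j * r := Nat.mul_pos (by positivity) hr1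
        nlinarith
      exact good_of_Gd4 hdet R hδi (hsh d hδi i1).ok hF hL hm64 f1 f2 f3 ht hc0 hE0 ha0 s1 s2 i2 i4
        hGd
    · intro j hj
      obtain ⟨s1, s2⟩ := hsc j hj
      obtain ⟨f1, f2, f3⟩ := hfit _ s2
      exact SA_sub f1.le f2.le f3.le

end Pool.Agent.TH990.DP
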